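import Pool.Agent.Y933.KG.AlgHat
import Pool.Agent.Y603.BR.Conv

/-!
# Small circuits of bounded depth cannot tell the digits of algebraic numbers from random digits

The real algebraic numbers `x` of degree `d ≥ 2` are ordered by their height, the largest absolute
value `H` of a coefficient of the minimal polynomial over the integers. For every depth `D`, every
base `b`, all `A` and `δ > 0` there is `c > 0` such that a circuit of depth at most `D` with at most
`exp((log H) ^ c)` gates which reads the base `b` digits of `x` (or of `G(x)`, where `G` is a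
polynomial of degree between `1` and `d - 1` with moderate coefficients) at places between
`δ log_b H` and `A log_b H` accepts `x` with the probability with which it accepts random digits,
up to `exp(-(log H) ^ c)`.

Proof. By Möbius inversion and a bound for the number of reducible polynomials (Gelfond's
inequality) the exponential sums over the algebraic numbers of degree `d` and height at most `H` are
reduced to sums over all real roots of all integral polynomials of height at most `H`; these are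
bounded by the test of van der Corput of high order for the roots as functions of the constant
coefficient. The theorem of Braverman on circuits of bounded depth, for almost independent digits,
does the rest.
-/

set_option autoImplicit false

namespace Pool.Agent.Results.MP_5b6025_nt.AlgebraicNumbersAgainstCircuits

open Polynomial MeasureTheory
open Pool.Agent.Y603.BR (digit Circuit circ_fool measurableSet_val)
open Pool.Agent.Y933.KD (unif unif_prob integral_unif real_unif)

/-- the real algebraic numbers of degree `d` and height at most `H`: the real roots of the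
irreducible integral polynomials of degree `d` with all coefficients at most `H` in absolute value -/
def AlgNumbers (d H : ℕ) : Set ℝ :=
  {x | ∃ P : ℤ[X], Irreducible P ∧ P.natDegree = d ∧ (∀ i, |P.coeff i| ≤ H) ∧ aeval x P = 0}

theorem result (d : ℕ) (hd : 2 ≤ d) {b : ℕ} (hb : 2 ≤ b) (D : ℕ) {δ : ℝ} (hδ : 0 < δ) (A : ℝ) :
    ∃ c : ℝ, 0 < c ∧ ∃ H₀ : ℕ, ∀ H : ℕ, H₀ ≤ H →
      (AlgNumbers d H).Finite ∧ (AlgNumbers d H).Nonempty ∧
      ∀ G : ℝ[X], 1 ≤ G.natDegree → G.natDegree < d →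
      (∀ i, 1 ≤ i → |G.coeff i| ≤ (H : ℝ) ^ c) → (H : ℝ) ^ (-c) ≤ |G.leadingCoeff| →
      ∀ s n : ℕ, (H : ℝ) ^ δ ≤ (b : ℝ) ^ s → (b : ℝ) ^ (s + n) ≤ (H : ℝ) ^ A →
      ∀ C : Circuit (Set.Icc 1 n), (∀ v, C.depth v ≤ D) →
      (Nat.card C.Node : ℝ) ≤ Real.exp (Real.log H ^ c) → ∀ v : C.Node,
      |(({x ∈ AlgNumbers d H | C.val v (fun j => digit b (G.eval x) (s + j)) = true}.ncard : ℕ) : ℝ) /
            ((AlgNumbers d H).ncard : ℝ) -
          volume.real {t | t ∈ Set.Ico (0 : ℝ) 1 ∧ C.val v (digit b t) = true}| ≤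
        Real.exp (-(Real.log H ^ c)) := by
  classical
  obtain ⟨q, rfl⟩ : ∃ q, d = q + 2 := ⟨d - 2, by omega⟩
  have hb0 : 0 < b := by omega
  have hbR : (2 : ℝ) ≤ b := by exact_mod_cast hb
  obtain ⟨A', hA'⟩ : ∃ A' : ℝ, A' = max A 0 := ⟨_, rfl⟩
  have hA'0 : 0 ≤ A' := by rw [hA']; exact le_max_right _ _
  have hAA' : A ≤ A' := by rw [hA']; exact le_max_left _ _
  obtain ⟨K, hK⟩ : ∃ K : ℕ, K = ⌈A' + 2 + A'⌉₊ + 1 := ⟨_, rfl⟩
  obtain ⟨κ, hκ, ρ, hρ, H1, hH1⟩ := Pool.Agent.Y933.KG.alg_hat q K (by omega) δ hδ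
  obtain ⟨c1, hc1, H2, hH2⟩ := circ_fool hb D hA'0 hρ
  refine ⟨min κ c1, lt_min hκ hc1, max (max H1 H2) 3, fun H hH => ?_⟩
  have hHa : H1 ≤ H := le_of_max_le_left (le_of_max_le_left hH)
  have hHb : H2 ≤ H := le_of_max_le_right (le_of_max_le_left hH)
  have hHc : 3 ≤ H := le_of_max_le_right hH
  have hHR : (3 : ℝ) ≤ H := by exact_mod_cast hHc
  have hH1R : (1 : ℝ) ≤ H := by linarith
  have hHp : (0 : ℝ) < H := by linarith
  have hlog : 1 ≤ Real.log H := by
    rw [Real.le_log_iff_exp_le hHp]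
    exact (Real.exp_one_lt_d9.le.trans (by norm_num)).trans hHR
  obtain ⟨hAne, hkey⟩ := hH1 H hHa
  have hfin : (AlgNumbers (q + 2) H).Finite := Pool.Agent.Y933.KG.Alg_finite q H
  refine ⟨hfin, hAne, ?_⟩
  intro G hG1 hG2 hG3 hG4 s n hs hsn C hCd hCs v
  obtain ⟨s0, hs0⟩ : ∃ s0 : Finset ℝ, s0 = hfin.toFinset := ⟨_, rfl⟩
  have hmem : ∀ x, x ∈ s0 ↔ x ∈ AlgNumbers (q + 2) H := by
    intro x
    rw [hs0, Set.Finite.mem_toFinset]
  have hne : s0.Nonempty := by
    obtain ⟨x, hx⟩ := hAne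
    exact ⟨x, (hmem x).2 hx⟩
  have hcard0 : (0 : ℝ) < s0.card := by exact_mod_cast hne.card_pos
  have hbs : (0 : ℝ) < (b : ℝ) ^ s := by positivity
  have hbn1 : (1 : ℝ) ≤ (b : ℝ) ^ n := one_le_pow₀ (by linarith)
  have hbs1 : (1 : ℝ) ≤ (b : ℝ) ^ s := one_le_pow₀ (by linarith)
  have hsn' : (b : ℝ) ^ (s + n) ≤ (H : ℝ) ^ A' :=
    hsn.trans (Real.rpow_le_rpow_of_exponent_le hH1R hAA')
  rw [pow_add] at hsn'
  have hs2 : (b : ℝ) ^ s ≤ (H : ℝ) ^ A' := by nlinarith
  have hn2 : (b : ℝ) ^ n ≤ (H : ℝ) ^ A' := by nlinarith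
  have hGc : ∀ i, 1 ≤ i → |G.coeff i| ≤ (H : ℝ) ^ κ := fun i hi => (hG3 i hi).trans
    (Real.rpow_le_rpow_of_exponent_le hH1R (min_le_left _ _))
  have hGl : (H : ℝ) ^ (-κ) ≤ |G.leadingCoeff| := le_trans
    (Real.rpow_le_rpow_of_exponent_le hH1R (neg_le_neg (min_le_left _ _))) hG4
  have := unif_prob hne fun x : ℝ => (b : ℝ) ^ s * G.eval x
  have key := hH2 H hHb (unif s0 fun x : ℝ => (b : ℝ) ^ s * G.eval x) (by
    intro l hl hle
    have hl1 : (1 : ℝ) ≤ |(l : ℝ)| := by
      have : (1 : ℤ) ≤ |l| := Int.one_le_abs hl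
      exact_mod_cast this
    have h1 : (H : ℝ) ^ δ ≤ |(l : ℝ) * (b : ℝ) ^ s| := by
      rw [abs_mul, abs_of_pos hbs]
      nlinarith
    have h2 : |(l : ℝ) * (b : ℝ) ^ s| ≤ (H : ℝ) ^ (K : ℝ) := by
      rw [abs_mul, abs_of_pos hbs]
      calc |(l : ℝ)| * (b : ℝ) ^ s ≤ (H : ℝ) ^ (A' + 2) * (H : ℝ) ^ A' := by gcongr
        _ = (H : ℝ) ^ (A' + 2 + A') := (Real.rpow_add hHp _ _).symm
        _ ≤ _ := by
            apply Real.rpow_le_rpow_of_exponent_le hH1R
            rw [hK]
            push_cast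
            linarith [Nat.le_ceil (A' + 2 + A')]
    have h3 := hkey G hG1 (by omega) hGc hGl _ h1 h2 s0 hmem
    unfold Pool.Agent.Y933.KD.hat
    rw [integral_unif]
    have e1 : ∑ x ∈ s0, Pool.Agent.Y933.KD.e (l * ((b : ℝ) ^ s * G.eval x)) =
        ∑ x ∈ s0, Pool.Agent.H469R2.NK.e ((l : ℝ) * (b : ℝ) ^ s * G.eval x) := by
      refine Finset.sum_congr rfl fun x _ => ?_
      rw [← mul_assoc]
      rfl
    rw [e1, norm_mul, norm_div, norm_one, Complex.norm_natCast, one_div, inv_mul_le_iff₀ hcard0]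
    exact h3) n hn2 C hCd (hCs.trans (Real.exp_le_exp.2
      (Real.rpow_le_rpow_of_exponent_le hlog (min_le_right _ _)))) v
  have hexp : Real.exp (-(Real.log H ^ c1)) ≤ Real.exp (-(Real.log H ^ (min κ c1))) :=
    Real.exp_le_exp.2 (neg_le_neg (Real.rpow_le_rpow_of_exponent_le hlog (min_le_right _ _)))
  refine le_trans (le_of_eq ?_) (key.trans hexp)
  rw [real_unif _ _ (measurableSet_val hb0 C v)]
  have hdig : ∀ y : ℝ, digit b ((b : ℝ) ^ s * y) = fun j => digit b y (s + j) := by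
    intro y
    funext j
    unfold digit
    rw [pow_add, ← mul_assoc, mul_comm ((b : ℝ) ^ j)]
  have e1 : ({x ∈ AlgNumbers (q + 2) H |
      C.val v (fun j => digit b (G.eval x) (s + j)) = true}.ncard : ℕ) =
      (s0.filter fun x => (b : ℝ) ^ s * G.eval x ∈ {y | C.val v (digit b y) = true}).card := by
    rw [← Set.ncard_coe_finset]
    congr 1
    ext x
    rw [Finset.mem_coe, Finset.mem_filter, hmem]
    simp only [Set.mem_ofPred_eq]
    rw [hdig]
  have e2 : (AlgNumbers (q + 2) H).ncard = s0.card := by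
    rw [← Set.ncard_coe_finset]
    congr 1
    ext x
    rw [Finset.mem_coe, hmem]
  rw [e1, e2]

end Pool.Agent.Results.MP_5b6025_nt.AlgebraicNumbersAgainstCircuits
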