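import Mathlib
import Pool.Agent.TH796.AL.Final
import Pool.Agent.Y954.AL.LD

set_option autoImplicit false

/-!
# Algebraic numbers and the field generated by all numbers of linear block complexity

Let `F` be the field generated by all real numbers which have at most `O(n)` different blocks of `n`
digits in some integer base, for all `n` in a given infinite set (different numbers may have
different bases and constants). We show that `F` is linearly disjoint from the field of all algebraic
numbers: algebraic numbers which are linearly independent over `ℚ` are linearly independent over `F`.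
-/

namespace Pool.Agent.Results.MP_5b6025_nt.LowComplexityFields

open Filter Topology

/-- the number of different blocks of length `n` in the sequence `w` -/
noncomputable def complexity {α : Type} (w : ℕ → α) (n : ℕ) : ℕ :=
  (Set.range fun i => fun j : Fin n => w (i + j)).ncard

/-- the digit of index `n + 1` after the point in the base `b` expansion of `x` -/
noncomputable def digit (b : ℕ) (x : ℝ) (n : ℕ) : ℤ := ⌊x * (b : ℝ) ^ (n + 1)⌋ % (b : ℤ)

/-- the real numbers which in some integer base `b ≥ 2` have at most `C n` different blocks of `n`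
digits for all `n ∈ S`; `b` and `C` may depend on the number -/
def Digits (S : Set ℕ) : Set ℝ :=
  {x | ∃ b : ℕ, 2 ≤ b ∧ ∃ C : ℝ, ∀ n ∈ S, (complexity (digit b x) n : ℝ) ≤ C * n}

/-- the sums of the series `∑ γ(w_0) ⋯ γ(w_{n-1}) c(w_n)`, where the `w_n` are in a finite set `A`,
`γ(a)` and `c(a)` are rational, `0 < |γ(a)| < 1`, and the sequence `w` has at most `C n` different
blocks of length `n`, for all `n ∈ S` -/
def Series (S : Set ℕ) : Set ℝ :=
  {x | ∃ (A : Type) (_ : Finite A) (γ c : A → ℚ) (w : ℕ → A) (C : ℝ),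
    (∀ a, γ a ≠ 0 ∧ |γ a| < 1) ∧
    HasSum (fun n => (∏ k ∈ Finset.range n, (γ (w k) : ℝ)) * (c (w n) : ℝ)) x ∧
    ∀ n ∈ S, (complexity w n : ℝ) ≤ C * n}

/-- the field generated by all these numbers -/
noncomputable def lowField (S : Set ℕ) : Subfield ℝ := Subfield.closure (Digits S ∪ Series S)

lemma frac_mem {S : Set ℕ} {x : ℝ} (hx : x ∈ Digits S ∪ Series S) :
    ∃ m : ℤ, x - m ∈ Series S := by
  rcases hx with ⟨b, hb, C, hC⟩ | hx
  · have : NeZero b := ⟨by omega⟩
    have hb0 : (b : ℚ) ≠ 0 := by exact_mod_cast (by omega : b ≠ 0)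
    refine ⟨⌊x⌋, ZMod b, inferInstance, fun _ => 1 / b, fun a => (a.val : ℚ) / b,
      Pool.Agent.TH796.AL.Final.dz b x, C, fun a => ⟨one_div_ne_zero hb0, ?_⟩, ?_, fun n hn => ?_⟩
    · rw [abs_of_nonneg (by positivity), div_lt_one (by have := hb; positivity)]
      exact_mod_cast (by omega : 1 < b)
    · have h := Pool.Agent.TH796.AL.Final.hasSum_digits hb x
      convert h using 2 with n
      simp only [Pool.Agent.TH796.AL.Strong.term]
      push_cast
      rfl
    · have h1 := hC n hn
      have h2 := Pool.Agent.TH796.AL.Final.complexity_digit hb x n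
      have h3 : complexity (digit b x) n
          = complexity (Pool.Agent.TH796.AL.Final.dz b x) n := h2
      rwa [h3] at h1
  · exact ⟨0, by simpa using hx⟩

/-- an element of a generated field is in the field generated by finitely many generators -/
lemma exists_finset (K : Subfield ℝ) (G : Set ℝ) :
    ∀ z ∈ Subfield.closure ((K : Set ℝ) ∪ G), ∃ t : Finset ℝ, (t : Set ℝ) ⊆ G ∧
      z ∈ Subfield.closure ((K : Set ℝ) ∪ t) := by
  classical
  intro z hz
  induction hz using Subfield.closure_induction with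
  | mem z hz =>
    rcases hz with hz | hz
    · exact ⟨∅, by simp, Subfield.subset_closure (Or.inl hz)⟩
    · exact ⟨{z}, by simpa using hz, Subfield.subset_closure (Or.inr (by simp))⟩
  | one => exact ⟨∅, by simp, one_mem _⟩
  | add a c _ _ ha hc =>
    obtain ⟨t, ht, h1⟩ := ha
    obtain ⟨t', ht', h2⟩ := hc
    refine ⟨t ∪ t', by rw [Finset.coe_union]; exact Set.union_subset ht ht', add_mem ?_ ?_⟩
    · exact Subfield.closure_mono (Set.union_subset_union_right _
        (by rw [Finset.coe_union]; exact Set.subset_union_left)) h1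
    · exact Subfield.closure_mono (Set.union_subset_union_right _
        (by rw [Finset.coe_union]; exact Set.subset_union_right)) h2
  | neg a _ ha =>
    obtain ⟨t, ht, h1⟩ := ha
    exact ⟨t, ht, neg_mem h1⟩
  | inv a _ ha =>
    obtain ⟨t, ht, h1⟩ := ha
    exact ⟨t, ht, inv_mem h1⟩
  | mul a c _ _ ha hc =>
    obtain ⟨t, ht, h1⟩ := ha
    obtain ⟨t', ht', h2⟩ := hc
    refine ⟨t ∪ t', by rw [Finset.coe_union]; exact Set.union_subset ht ht', mul_mem ?_ ?_⟩
    · exact Subfield.closure_mono (Set.union_subset_union_right _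
        (by rw [Finset.coe_union]; exact Set.subset_union_left)) h1
    · exact Subfield.closure_mono (Set.union_subset_union_right _
        (by rw [Finset.coe_union]; exact Set.subset_union_right)) h2

/-- the algebraic numbers in the field generated over `K` -/
theorem alg_mem {S : Set ℕ} (hS : S.Infinite) (K : Subfield ℝ) (hK : ∀ a ∈ K, IsAlgebraic ℚ a)
    {y : ℝ} (hy : IsAlgebraic ℚ y)
    (hyx : y ∈ Subfield.closure ((K : Set ℝ) ∪ (Digits S ∪ Series S))) : y ∈ K := by
  classical
  obtain ⟨t, htS, hyt⟩ := exists_finset K _ y hyx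
  choose m hm using fun z : t => frac_mem (htS z.2)
  choose A hA γ c w C hγ hsum hC using hm
  obtain ⟨C0, hC0⟩ : ∃ C0 : ℝ, ∀ z : t, C z ≤ C0 := by
    rcases isEmpty_or_nonempty t with h | h
    · exact ⟨0, fun z => h.elim z⟩
    · obtain ⟨z0, -, h0⟩ := Finset.exists_max_image Finset.univ C Finset.univ_nonempty
      exact ⟨C z0, fun z => h0 z (Finset.mem_univ z)⟩
  have h1 := Pool.Agent.TH796.AL.Strong.strong A γ hγ (K : Set ℝ) hK (fun z a => (c z a : ℝ))
    (fun z a => SubfieldClass.ratCast_mem _ (c z a)) w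
    (fun z => (z : ℝ) - (m z : ℝ)) hsum C0 ?_ y ?_ hy
  · rwa [Subfield.closure_eq] at h1
  · rw [frequently_atTop]
    intro n
    obtain ⟨k, hk, hnk⟩ := hS.exists_gt n
    refine ⟨k, hnk.le, fun z => ?_⟩
    have h2 := hC z k hk
    have h3 : C z * (k : ℝ) ≤ C0 * k := mul_le_mul_of_nonneg_right (hC0 z) (Nat.cast_nonneg _)
    exact le_trans h2 h3
  · have h2 : Subfield.closure ((K : Set ℝ) ∪ t)
        ≤ Subfield.closure ((K : Set ℝ) ∪ Set.range fun z : t => (z : ℝ) - (m z : ℝ)) := by
      rw [Subfield.closure_le]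
      rintro z (hz | hz)
      · exact Subfield.subset_closure (Or.inl hz)
      · have h3 : z - (m ⟨z, hz⟩ : ℝ)
            ∈ Subfield.closure ((K : Set ℝ) ∪ Set.range fun z : t => (z : ℝ) - (m z : ℝ)) :=
          Subfield.subset_closure (Or.inr ⟨⟨z, hz⟩, rfl⟩)
        have h4 := add_mem h3 (intCast_mem (Subfield.closure ((K : Set ℝ) ∪
          Set.range fun z : t => (z : ℝ) - (m z : ℝ))) (m ⟨z, hz⟩))
        rwa [sub_add_cancel] at h4
    exact h2 hyt

/-- the algebraic numbers in `lowField S` are rational -/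
theorem rational_of_mem {S : Set ℕ} (hS : S.Infinite) {y : ℝ} (hy : IsAlgebraic ℚ y)
    (h : y ∈ lowField S) : ∃ q : ℚ, (q : ℝ) = y := by
  have h1 := alg_mem hS (algebraMap ℚ ℝ).fieldRange (fun a ha => by
    obtain ⟨q, rfl⟩ := ha
    exact isAlgebraic_algebraMap q) hy
    (Subfield.closure_mono Set.subset_union_right h)
  obtain ⟨q, hq⟩ := h1
  exact ⟨q, hq⟩

/-- linear disjointness -/
theorem disjoint_thm {S : Set ℕ} (hS : S.Infinite) (r : ℕ) (α : Fin r → ℂ)
    (hα : ∀ i, IsAlgebraic ℚ (α i)) (hind : LinearIndependent ℚ α) (y : Fin r → ℝ)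
    (hy : ∀ i, y i ∈ lowField S) (h0 : ∑ i, (y i : ℂ) * α i = 0) : ∀ i, y i = 0 := by
  have h1 : LinearIndependent (lowField S) α := by
    refine Pool.Agent.Y954.AL.lin_indep (k := ℚ) (F := lowField S) (Ω := ℂ) ?_
      (fun i => isAlgebraic_iff_isIntegral.1 (hα i)) hind
    intro z hz
    have h2 : IsAlgebraic ℚ (z : ℝ) := by
      have h3 := isAlgebraic_iff_isIntegral.1 hz
      exact (h3.map (IsScalarTower.toAlgHom ℚ (lowField S) ℝ)).isAlgebraic
    obtain ⟨q, hq⟩ := rational_of_mem hS h2 z.2
    refine ⟨q, Subtype.ext ?_⟩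
    rw [← hq]
    simp
  rw [Fintype.linearIndependent_iff] at h1
  intro i
  have h2 := h1 (fun i => ⟨y i, hy i⟩) (by
    rw [← h0]
    refine Finset.sum_congr rfl fun j _ => ?_
    rw [Algebra.smul_def]
    rfl) i
  exact congrArg Subtype.val h2

/-- termwise sums -/
theorem sum_thm {y : ℝ} (hy : IsAlgebraic ℚ y) (hirr : Irrational y) {b : ℕ} (hb : 2 ≤ b) {r : ℕ}
    (u : Fin r → ℕ → ℤ) (hu : ∀ j, (Set.range (u j)).Finite)
    (hsum : ∀ k, ∑ j, u j k = digit b y k) (C : ℝ) :
    ∃ n₀ : ℕ, ∀ n ≥ n₀, ∃ j, C * n < complexity (u j) n := by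
  have : NeZero b := ⟨by omega⟩
  have hb1 : (1 : ℝ) < b := by exact_mod_cast (by omega : 1 < b)
  have hb0 : (0 : ℝ) < b := by linarith
  have hq0 : (b : ℚ) ≠ 0 := by exact_mod_cast (by omega : b ≠ 0)
  have hg : |((1 : ℚ) / b)| < 1 := by
    rw [abs_of_nonneg (by positivity), div_lt_one (by positivity)]
    exact_mod_cast (by omega : 1 < b)
  set K : Subfield ℝ := (algebraMap ℚ ℝ).fieldRange with hK
  have hKa : ∀ a ∈ K, IsAlgebraic ℚ a := by
    intro a ha
    obtain ⟨q, rfl⟩ := ha
    exact isAlgebraic_algebraMap q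
  have hyK : y ∉ K := by
    rintro ⟨q, hq⟩
    exact hirr ⟨q, hq⟩
  -- the sequences with values in their ranges
  set w : ∀ j, ℕ → Set.range (u j) := fun j k => ⟨u j k, k, rfl⟩ with hw
  set x : Fin r → ℝ := fun j => ∑' k, (u j k : ℝ) / (b : ℝ) ^ (k + 1) with hx
  have hbd : ∀ j, ∃ M : ℝ, ∀ k, |(u j k : ℝ)| ≤ M := by
    intro j
    obtain ⟨M, hM⟩ := ((hu j).image fun z : ℤ => |(z : ℝ)|).bddAbove
    exact ⟨M, fun k => hM ⟨u j k, ⟨k, rfl⟩, rfl⟩⟩
  have hsm : ∀ j, Summable fun k => (u j k : ℝ) / (b : ℝ) ^ (k + 1) := by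
    intro j
    obtain ⟨M, hM⟩ := hbd j
    have h1 : Summable fun k : ℕ => M * ((b : ℝ)⁻¹) ^ k := by
      refine (summable_geometric_of_lt_one (by positivity) ?_).mul_left M
      exact inv_lt_one_of_one_lt₀ hb1
    have h2 := (h1.mul_left ((b : ℝ)⁻¹))
    refine Summable.of_norm_bounded h2 fun k => ?_
    rw [Real.norm_eq_abs, abs_div, abs_of_pos (pow_pos hb0 (k + 1)), pow_succ, div_eq_mul_inv,
      mul_inv, ← inv_pow]
    have h3 := hM k
    have h4 : (0 : ℝ) ≤ ((b : ℝ)⁻¹) ^ k * (b : ℝ)⁻¹ := by positivity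
    calc |(u j k : ℝ)| * (((b : ℝ)⁻¹) ^ k * (b : ℝ)⁻¹)
        ≤ M * (((b : ℝ)⁻¹) ^ k * (b : ℝ)⁻¹) := mul_le_mul_of_nonneg_right h3 h4
      _ = (b : ℝ)⁻¹ * (M * ((b : ℝ)⁻¹) ^ k) := by ring
  have htot : y = ⌊y⌋ + ∑ j, x j := by
    have h1 := Pool.Agent.TH796.AL.Final.hasSum_digits hb y
    have h2 : ∀ k, Pool.Agent.TH796.AL.Strong.term (α := ZMod b) (fun _ => (1 / b : ℚ))
        (fun a => (a.val : ℝ) / b) (Pool.Agent.TH796.AL.Final.dz b y) k
        = ∑ j, (u j k : ℝ) / (b : ℝ) ^ (k + 1) := by
      intro k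
      have h3 : (digit b y k : ℝ) = ((Pool.Agent.TH796.AL.Final.dz b y k).val : ℝ) := by
        have := Pool.Agent.TH796.AL.Final.digit_eq hb y k
        have h4 : digit b y k = ((Pool.Agent.TH796.AL.Final.dz b y k).val : ℤ) := this
        rw [h4]
        norm_cast
      rw [← Finset.sum_div, ← Int.cast_sum, hsum, h3, Pool.Agent.TH796.AL.Strong.term,
        Finset.prod_const, Finset.card_range]
      push_cast
      rw [one_div, inv_pow, pow_succ]
      field_simp
    have h5 : ∑' k, ∑ j, (u j k : ℝ) / (b : ℝ) ^ (k + 1) = y - ⌊y⌋ := by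
      rw [← h1.tsum_eq]
      exact (tsum_congr h2).symm
    rw [Summable.tsum_finsetSum fun j _ => hsm j] at h5
    rw [hx]
    linarith
  obtain ⟨n₀, h⟩ := Pool.Agent.TH796.AL.Final.addr_thm K hKa y hy hyK (ι := Fin r)
    (fun j => Set.range (u j)) (fun _ _ => (1 : ℚ) / b) (fun j a => ((a : ℤ) : ℝ) / b) w x
    (fun j => (hu j).to_subtype)
    (fun i a => ⟨one_div_ne_zero hq0, hg⟩)
    (fun i a => K.div_mem (intCast_mem K _) (natCast_mem K _)) (fun j => by
      have h2 := (hsm j).hasSum
      convert h2 using 2 with k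
      rw [Finset.prod_const, Finset.card_range]
      push_cast
      rw [one_div, inv_pow, pow_succ]
      simp only [hw]
      field_simp) (by
      rw [htot]
      refine add_mem (intCast_mem _ _) (sum_mem fun j _ => ?_)
      exact Subfield.subset_closure (Or.inr ⟨j, rfl⟩)) C
  refine ⟨n₀, fun n hn => ?_⟩
  obtain ⟨j, hj⟩ := h n hn
  refine ⟨j, ?_⟩
  have h3 : Pool.Agent.TH796.AL.Final.complexity (w j) n = complexity (u j) n := by
    rw [Pool.Agent.TH796.AL.Final.complexity, complexity]
    have h4 : (Set.range fun i => fun l : Fin n => u j (i + l))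
        = (fun (v : Fin n → Set.range (u j)) (l : Fin n) => ((v l : ℤ))) ''
          Set.range (fun i => fun l : Fin n => w j (i + l)) := by
      rw [← Set.range_comp]
      rfl
    rw [h4]
    refine (Set.ncard_image_of_injective _ fun v v' hv => ?_).symm
    funext l
    exact Subtype.ext (congrFun hv l)
  rwa [h3] at hj

/-- Let `F = lowField S` be the field generated by all real numbers which in some integer base have
at most `C n` different blocks of `n` digits for all `n ∈ S` (base and `C` depend on the number), and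
by the numbers in `Series S`.

(1) For every infinite set `S` the field `F` is linearly disjoint from the field of all complex
algebraic numbers: if `α_1, …, α_r` are algebraic and linearly independent over `ℚ`, then they are
linearly independent over `F`. (For `r = 2`, `α_1 = 1`: an irrational algebraic number is not in `F`.)

(2) Let `K` be a field of real algebraic numbers and let an algebraic number `y ∉ K` be in the field
`K(x_1, …, x_r)`. For all bases `b_1, …, b_r`, every `C` and all large `n`, some `x_i` has more than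
`C n` different blocks of `n` digits in base `b_i`.

(3) Let the digits of an irrational algebraic number in base `b` be written as the termwise sum of
`r` sequences of integers with finitely many values. For every `C` and all large `n`, one of these
sequences has more than `C n` different blocks of length `n`. For every `m ≥ 1`, every `C` and all
large `n` the digits in the places of some residue class modulo `m` form a sequence with more than
`C n` different blocks of length `n`. -/
theorem result :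
    (∀ S : Set ℕ, S.Infinite → ∀ (r : ℕ) (α : Fin r → ℂ), (∀ i, IsAlgebraic ℚ (α i)) →
      LinearIndependent ℚ α → ∀ y : Fin r → ℝ, (∀ i, y i ∈ lowField S) →
      ∑ i, (y i : ℂ) * α i = 0 → ∀ i, y i = 0) ∧
    (∀ K : Subfield ℝ, (∀ a ∈ K, IsAlgebraic ℚ a) → ∀ y : ℝ, IsAlgebraic ℚ y → y ∉ K →
      ∀ (r : ℕ) (b : Fin r → ℕ) (x : Fin r → ℝ), (∀ i, 2 ≤ b i) →
      y ∈ Subfield.closure ((K : Set ℝ) ∪ Set.range x) →
      ∀ C : ℝ, ∃ n₀ : ℕ, ∀ n ≥ n₀, ∃ i, C * n < complexity (digit (b i) (x i)) n) ∧
    (∀ y : ℝ, IsAlgebraic ℚ y → Irrational y → ∀ b : ℕ, 2 ≤ b →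
      (∀ (r : ℕ) (u : Fin r → ℕ → ℤ), (∀ j, (Set.range (u j)).Finite) →
        (∀ k, ∑ j, u j k = digit b y k) →
        ∀ C : ℝ, ∃ n₀ : ℕ, ∀ n ≥ n₀, ∃ j, C * n < complexity (u j) n) ∧
      (∀ m : ℕ, 1 ≤ m → ∀ C : ℝ, ∃ n₀ : ℕ, ∀ n ≥ n₀, ∃ j < m,
        C * n < complexity (fun k => digit b y (m * k + j)) n)) := by
  refine ⟨fun S hS r α hα hind y hy h0 => disjoint_thm hS r α hα hind y hy h0,
    fun K hK y hy hyK r b x hb hyx C =>
      Pool.Agent.TH796.AL.Final.digit_thm K hK y hy hyK b x hb hyx C,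
    fun y hy hirr b hb => ⟨fun r u hu hsum C => sum_thm hy hirr hb u hu hsum C,
      fun m hm C => Pool.Agent.TH796.AL.Final.residue_thm y hy hirr hb hm C⟩⟩

end Pool.Agent.Results.MP_5b6025_nt.LowComplexityFields
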