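import Pool.Agent.Y603.BR.Conv
import Pool.Agent.Y603.BR.Neg

/-!
The digits of the numbers `ω m ^ θ + y` (for instance of the roots of the integers `m`) cannot be
distinguished from random digits by circuits of constant depth and subexponential size.
-/

set_option autoImplicit false

namespace Pool.Agent.Results.MP_5b6025_nt.RootsAgainstCircuits

open Finset MeasureTheory Real
open Pool.Agent.Y603.BR (digit Circuit circ_fool unif_val hat_unif)
open Pool.Agent.Y933.KD (unif unif_prob range_ok)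

theorem result {b : ℕ} (hb : 2 ≤ b) (d : ℕ) {θ ε : ℝ} (hθ : 0 < θ) (hθ' : ∀ k : ℕ, θ ≠ k)
    (hε : 0 < ε) (A : ℝ) :
    ∃ c : ℝ, 0 < c ∧ ∃ M₀ : ℕ, ∀ M : ℕ, M₀ ≤ M → ∀ N : ℕ,
      (N : ℝ) ^ (1 / 2 + ε) ≤ M → (N : ℝ) ^ (1 - θ + ε) ≤ M →
      ∀ ω y : ℝ, 1 ≤ |ω| → |ω| ≤ (M : ℝ) ^ A → ∀ n : ℕ, (b : ℝ) ^ n ≤ (M : ℝ) ^ A →
      ∀ C : Circuit (Set.Icc 1 n), (∀ v, C.depth v ≤ d) →
      (Nat.card C.Node : ℝ) ≤ exp (log M ^ c) → ∀ v : C.Node,
      |(((Ioc N (N + M)).filter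
          fun m : ℕ => C.val v (digit b (ω * (m : ℝ) ^ θ + y)) = true).card : ℝ) / M -
        volume.real {t | t ∈ Set.Ico (0 : ℝ) 1 ∧ C.val v (digit b t) = true}| ≤
          exp (-(log M ^ c)) := by
  set A' := max A 0 with hA'
  have hA'0 : 0 ≤ A' := le_max_right _ _
  obtain ⟨μ, hμ, hμ1, M1, hM1⟩ := range_ok hθ hε
  obtain ⟨ρ, hρ, M2, hM2⟩ := Pool.Agent.Y933.KD.VdC.pow_sum hθ' (A' + (A' + 2)) μ hμ hμ1
  obtain ⟨c, hc, M3, hM3⟩ := circ_fool hb d hA'0 hρ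
  refine ⟨c, hc, max (max M1 M2) (max M3 1), ?_⟩
  intro M hM N hN1 hN2 ω y hω1 hω2 n hn C hCd hCs v
  have hMM1 : M1 ≤ M := le_of_max_le_left (le_of_max_le_left hM)
  have hMM2 : M2 ≤ M := le_of_max_le_right (le_of_max_le_left hM)
  have hMM3 : M3 ≤ M := le_of_max_le_left (le_of_max_le_right hM)
  have hM1' : 1 ≤ M := le_of_max_le_right (le_of_max_le_right hM)
  have hMR : (1 : ℝ) ≤ M := by exact_mod_cast hM1'
  have hMp : (0 : ℝ) < M := by linarith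
  have hAA : (M : ℝ) ^ A ≤ (M : ℝ) ^ A' :=
    Real.rpow_le_rpow_of_exponent_le hMR (le_max_left _ _)
  obtain ⟨hr1, hr2⟩ := hM1 M hMM1 N hN1 hN2
  have hne : (Ioc N (N + M)).Nonempty := by
    rw [Finset.nonempty_Ioc]
    omega
  have := unif_prob hne fun m : ℕ => ω * (m : ℝ) ^ θ + y
  have key := hM3 M hMM3 (unif (Ioc N (N + M)) fun m : ℕ => ω * (m : ℝ) ^ θ + y) (by
    intro l hl hle
    have hl1 : (1 : ℝ) ≤ |(l : ℝ)| := by
      have : (1 : ℤ) ≤ |l| := Int.one_le_abs hl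
      exact_mod_cast this
    have h1 : 1 ≤ |(l : ℝ) * ω| := by
      rw [abs_mul]
      nlinarith
    have h2 : |(l : ℝ) * ω| ≤ (M : ℝ) ^ (A' + (A' + 2)) := by
      rw [abs_mul, Real.rpow_add hMp, mul_comm]
      exact mul_le_mul (hω2.trans hAA) hle (abs_nonneg _) (by positivity)
    have h3 := hat_unif hM1' ω y θ l (hM2 M hMM2 N hr1 hr2 _ h1 h2)
    refine h3.trans (le_of_eq ?_)
    congr 1
    ring) n (hn.trans hAA) C hCd hCs v
  rw [unif_val (by omega)] at key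
  exact key

end Pool.Agent.Results.MP_5b6025_nt.RootsAgainstCircuits
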