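import Pool.Agent.Y933.KF.Grow3
import Pool.Agent.Y933.KD.Roots

/-!
# Words of growing length in the multiples of algebraic numbers

For almost all multiples `m * ξ + y`, `m ≤ M`, of an algebraic irrational number `ξ`, also for the
multiples by primes, and for almost all of the numbers `ω * m ^ θ + y` (for instance roots), in all
bases `b ≤ B`: all words of `k ≤ (1 - ε) log_b log M` digits have the right frequency, with a relative
error `ε`, in all windows of places up to `A log M`. The length is best possible: there are only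
`A log M` places, hence words of more than `log_b log M + O(1)` digits do not all occur. The exceptional
proportion is at most `B exp (-(log M) ^ (ε / 2))`.
-/

set_option autoImplicit false

namespace Pool.Agent.Results.MP_5b6025_nt.WordsOfGrowingLength

/-- the word of the `k` digits in base `b` of `x` which follow the first `n` digits after the point,
read as an integer between `0` and `b ^ k - 1` -/
noncomputable def word (b k n : ℕ) (x : ℝ) : ℕ :=
  ⌊(b : ℝ) ^ k * Int.fract ((b : ℝ) ^ n * x)⌋₊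

/-- In every base `2 ≤ b ≤ B`, for all `k` with `b ^ k ≤ (log M) ^ (1 - ε)`, all words `w` of `k`
digits and all windows of `N` places from the place `s` on, `s + N ≤ A log M`, the number of the
occurrences of `w` in the window differs from `N / b ^ k` by at most `ε (log M) / b ^ k`. -/
def AllLongWords (B : ℕ) (A ε : ℝ) (M : ℕ) (x : ℝ) : Prop :=
  ∀ b k w s N : ℕ, 2 ≤ b → b ≤ B → 1 ≤ k → (b : ℝ) ^ k ≤ (Real.log M) ^ (1 - ε) → w < b ^ k →
    (s : ℝ) + N ≤ A * Real.log M →
    |(((Finset.range N).filter (fun i => word b k (s + i) x = w)).card : ℝ) - N / (b : ℝ) ^ k| ≤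
      ε * Real.log M / (b : ℝ) ^ k

/-- the primes up to `M` -/
def primes (M : ℕ) : Finset ℕ := (Finset.Icc 1 M).filter Nat.Prime

open Classical in
/-- Let `B`, `A` and `0 < ε ≤ 1` be given.

(1) For every real algebraic irrational number `ξ` there is `M₀` such that for all `M ≥ M₀`, all `L`
and all real `y`: all but a proportion `B * exp (-(log M) ^ (ε / 2))` of the integers `m` in
`(L, L + M]` and of the primes `m ≤ M` are such that `m * ξ + y` has the property `AllLongWords`.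

(2) Let `θ > 0` not be an integer, and let `κ > 0` and `W` be given. There is `M₀` such that for all
`M ≥ M₀`, all `L` with `L ^ (1 / 2 + κ) ≤ M` and `L ^ (1 - θ + κ) ≤ M`, all real `y` and all real `ω`
with `1 ≤ |ω| ≤ M ^ W`, all but a proportion `B * exp (-(log M) ^ (ε / 2))` of the integers `m` in
`(L, L + M]` are such that `ω * m ^ θ + y` has this property. -/
theorem result (B : ℕ) (A ε : ℝ) (hε : 0 < ε) (hε1 : ε ≤ 1) :
    (∀ ξ : ℝ, IsAlgebraic ℚ ξ → Irrational ξ → ∃ M₀ : ℕ, ∀ M : ℕ, M₀ ≤ M → ∀ (L : ℕ) (y : ℝ),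
      (((Finset.Ioc L (L + M)).filter (fun m : ℕ => ¬ AllLongWords B A ε M (m * ξ + y))).card : ℝ) ≤
        B * Real.exp (-(Real.log M) ^ (ε / 2)) * M ∧
      (((primes M).filter (fun p : ℕ => ¬ AllLongWords B A ε M (p * ξ + y))).card : ℝ) ≤
        B * Real.exp (-(Real.log M) ^ (ε / 2)) * (primes M).card) ∧
    (∀ θ κ W : ℝ, 0 < θ → (∀ r : ℕ, θ ≠ r) → 0 < κ → ∃ M₀ : ℕ, ∀ M : ℕ, M₀ ≤ M →
      ∀ (L : ℕ) (ω y : ℝ), (L : ℝ) ^ (1 / 2 + κ) ≤ M → (L : ℝ) ^ (1 - θ + κ) ≤ M →
      1 ≤ |ω| → |ω| ≤ (M : ℝ) ^ W →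
      (((Finset.Ioc L (L + M)).filter (fun m : ℕ =>
        ¬ AllLongWords B A ε M (ω * (m : ℝ) ^ θ + y))).card : ℝ) ≤
          B * Real.exp (-(Real.log M) ^ (ε / 2)) * M) := by
  refine ⟨fun ξ halg hirr => ?_, fun θ κ W hθ hθ' hκ => ?_⟩
  · obtain ⟨M1, h1⟩ := Pool.Agent.Y933.KF.grow_all (ι := ℕ) B (A := A) hε hε1
      (Pool.Agent.Y933.KD.SM_prob (fun _ : Fin 1 => ξ))
      (fun b => Pool.Agent.Y933.KD.good_mult (fun _ : Fin 1 => ξ) 0 halg hirr b 1 (A + 1))
    obtain ⟨M2, h2⟩ := Pool.Agent.Y933.KF.grow_all (ι := ℕ) B (A := A) hε hε1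
      (Pool.Agent.Y933.KD.SPr_prob ξ)
      (fun b => Pool.Agent.Y933.KD.good_prime ξ halg hirr b 1 (A + 1))
    refine ⟨max (max M1 M2) 2, fun M hM L y => ⟨?_, ?_⟩⟩
    · have h3 := h1 M ((le_max_left _ _).trans (le_of_max_le_left hM)) (Finset.Ioc L (L + M))
        (fun m => m * ξ + y) ⟨_, Pool.Agent.Y933.KD.unif_shift L M ξ y⟩
      rw [Nat.card_Ioc, Nat.add_sub_cancel_left] at h3
      exact h3
    · exact h2 M ((le_max_right _ _).trans (le_of_max_le_left hM)) (primes M)
        (fun m => m * ξ + y) ⟨le_of_max_le_right hM, y, rfl⟩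
  · obtain ⟨M1, h1⟩ := Pool.Agent.Y933.KF.grow_all (ι := ℕ) B (A := A) hε hε1
      (Pool.Agent.Y933.KD.SR_prob θ κ W)
      (fun b => Pool.Agent.Y933.KD.good_root hθ hθ' hκ W b 1 (A + 1))
    refine ⟨M1, fun M hM L ω y hL1 hL2 hω1 hω2 => ?_⟩
    have h3 := h1 M hM (Finset.Ioc L (L + M)) (fun m : ℕ => ω * (m : ℝ) ^ θ + y)
      ⟨L, ω, y, hL1, hL2, hω1, hω2, rfl⟩
    rw [Nat.card_Ioc, Nat.add_sub_cancel_left] at h3
    exact h3

end Pool.Agent.Results.MP_5b6025_nt.WordsOfGrowingLength
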